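import Pool.Agent.Q230.Gas2

/-!
# MP_214325_an, Q1: a full disproof

For every period `b > 0` the operator `ℒ = d⁴/dx⁴ + e^{2πix/b}`, the polynomial `R(w) = w²` and the
entire function `Δ(w) = 2 cosh (b √w)` satisfy the hypothesis of the question, but
`ℒ ≠ R(ℋ)` for every Hill operator `ℋ`.
-/

set_option autoImplicit false

open scoped ContDiff
open Polynomial

namespace Pool.Agent.Results.MP_214325_an.GasymovPotential

/-- `ℒ u = u^{(n)} + ∑_{k ≤ n - 2} p_k u^{(k)}` -/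
noncomputable def op (n : ℕ) (p : ℕ → ℝ → ℂ) (u : ℝ → ℂ) (x : ℝ) : ℂ :=
  iteratedDeriv n u x + ∑ k ∈ Finset.range (n - 1), p k x * iteratedDeriv k u x

/-- the solutions `u_1, …, u_n` of `ℒ u = λ u` with `u_j^{(k-1)}(0) = δ_{jk}`
(indices from `0` here) -/
def IsFund (n : ℕ) (p : ℕ → ℝ → ℂ) (lam : ℂ) (u : Fin n → ℝ → ℂ) : Prop :=
  (∀ j, ContDiff ℝ n (u j)) ∧ (∀ j x, op n p (u j) x = lam * u j x) ∧
    ∀ j k : Fin n, iteratedDeriv k (u j) 0 = if j = k then 1 else 0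

/-- the Floquet matrix `(u_j^{(k-1)}(b))_{k,j}` -/
noncomputable def floquetMatrix (n : ℕ) (b : ℝ) (u : Fin n → ℝ → ℂ) : Matrix (Fin n) (Fin n) ℂ :=
  Matrix.of fun k j => iteratedDeriv k (u j) b

/-- `P(r) = det (r I - T)` for the Floquet matrix `T` -/
noncomputable def P (n : ℕ) (b : ℝ) (u : Fin n → ℝ → ℂ) (r : ℂ) : ℂ :=
  (r • (1 : Matrix (Fin n) (Fin n) ℂ) - floquetMatrix n b u).det

/-- the Hill operator `ℋ u = u'' + q u` -/
noncomputable def hill (q u : ℝ → ℂ) : ℝ → ℂ := fun x => iteratedDeriv 2 u x + q x * u x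

/-- `R(ℋ) = ∑ c_k ℋ^k` -/
noncomputable def polyHill (R : ℂ[X]) (q u : ℝ → ℂ) (x : ℝ) : ℂ :=
  ∑ k ∈ Finset.range (R.natDegree + 1), R.coeff k * (hill q)^[k] u x

/-- `2 cosh (b √w)` -/
noncomputable def disc (b : ℝ) (w : ℂ) : ℂ := ∑' k : ℕ, 2 * ((b : ℂ) ^ 2 * w) ^ k / (2 * k).factorial

lemma disc_sq (b : ℝ) (β : ℂ) :
    disc b (β ^ 2) = Complex.exp (β * b) + Complex.exp (-(β * b)) := by
  have h := (Complex.hasSum_cosh (β * b)).mul_left 2
  have h2 : HasSum (fun k : ℕ => 2 * ((b : ℂ) ^ 2 * β ^ 2) ^ k / (2 * k).factorial)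
      (2 * Complex.cosh (β * b)) := by
    have hf : (fun k : ℕ => 2 * ((b : ℂ) ^ 2 * β ^ 2) ^ k / (2 * k).factorial) =
        fun k : ℕ => 2 * ((β * b) ^ (2 * k) / (2 * k).factorial) := by
      funext k
      rw [pow_mul, mul_pow β, mul_comm (β ^ 2)]
      ring
    rw [hf]
    exact h
  rw [disc, h2.tsum_eq, Complex.cosh]
  ring

lemma disc_diff (b : ℝ) : Differentiable ℂ (disc b) := by
  intro w₀
  set M : ℝ := ‖w₀‖ + 1 with hM
  have hu : Summable fun k : ℕ => 2 * ((b ^ 2 * M) ^ k / k.factorial) :=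
    (Real.summable_pow_div_factorial _).mul_left 2
  have hd : DifferentiableOn ℂ (disc b) (Metric.ball 0 M) := by
    refine Complex.differentiableOn_tsum_of_summable_norm hu (fun k => ?_) Metric.isOpen_ball ?_
    · have : Differentiable ℂ fun w : ℂ => 2 * ((b : ℂ) ^ 2 * w) ^ k / (2 * k).factorial := by
        fun_prop
      exact this.differentiableOn
    · intro k w hw
      have hw : ‖w‖ ≤ M := (mem_ball_zero_iff.1 hw).le
      rw [norm_div, norm_mul, norm_pow, norm_mul, norm_pow, Complex.norm_real, Complex.norm_natCast,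
        Complex.norm_ofNat, Real.norm_eq_abs, sq_abs, mul_div_assoc]
      have h1 : ((k.factorial : ℕ) : ℝ) ≤ ((2 * k).factorial : ℕ) := by
        exact_mod_cast Nat.factorial_le (by omega)
      have h2 : (0 : ℝ) < k.factorial := by exact_mod_cast Nat.factorial_pos k
      gcongr
  exact (hd.differentiableAt (Metric.isOpen_ball.mem_nhds (by simp [hM])))

/-- the coefficients -/
noncomputable def pot (κ : ℝ) (k : ℕ) : ℝ → ℂ := if k = 0 then Q230.Gas.q κ else 0

lemma op_pot (κ : ℝ) (u : ℝ → ℂ) (x : ℝ) :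
    op 4 (pot κ) u x = iteratedDeriv 4 u x + Q230.Gas.q κ x * u x := by
  unfold op pot
  simp [Finset.sum_range_succ]

lemma isFund_iff (κ : ℝ) (lam : ℂ) (u : Fin 4 → ℝ → ℂ) :
    IsFund 4 (pot κ) lam u ↔ Q230.Gas.Fund κ lam u := by
  unfold IsFund Q230.Gas.Fund Q230.Gas.Sol
  simp only [op_pot]
  constructor
  · rintro ⟨h1, h2, h3⟩ j
    refine ⟨⟨h1 j, h2 j⟩, ?_⟩
    funext k
    show iteratedDeriv k (u j) 0 = _
    rw [h3, Pi.single_apply]
    simp only [eq_comm]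
  · intro h
    refine ⟨fun j => (h j).1.1, fun j => (h j).1.2, fun j k => ?_⟩
    have h1 : iteratedDeriv k (u j) 0 = _ := congrFun (h j).2 k
    rw [h1, Pi.single_apply]
    simp only [eq_comm]

lemma hill_one (q : ℝ → ℂ) : hill q (fun _ => 1) = q := by
  funext x
  unfold hill
  have : iteratedDeriv 2 (fun _ : ℝ => (1 : ℂ)) x = 0 := by
    rw [iteratedDeriv_const]
    simp
  rw [this]
  ring

lemma hill_id (q : ℝ → ℂ) : hill q (fun x => (x : ℂ)) = fun x => q x * x := by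
  funext x
  unfold hill
  have h1 : deriv (fun x : ℝ => (x : ℂ)) = fun _ => 1 := by
    funext x
    exact Complex.ofRealCLM.hasDerivAt.deriv
  have : iteratedDeriv 2 (fun x : ℝ => (x : ℂ)) x = 0 := by
    rw [iteratedDeriv_succ, iteratedDeriv_one, h1]
    simp
  rw [this]
  ring

lemma iter_two (q : ℝ → ℂ) (hq : ContDiff ℝ 2 q) (x : ℝ) :
    iteratedDeriv 2 (fun x => q x * x) x = iteratedDeriv 2 q x * x + 2 * deriv q x := by
  have hq0 : Differentiable ℝ q := hq.differentiable (by norm_num)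
  have hq1 : Differentiable ℝ (deriv q) := by
    have := hq.differentiable_iteratedDeriv 1 (by norm_num)
    rwa [iteratedDeriv_one] at this
  have hx : ∀ x : ℝ, HasDerivAt (fun x : ℝ => (x : ℂ)) 1 x := fun x => Complex.ofRealCLM.hasDerivAt
  have h1 : deriv (fun x => q x * x) = fun x : ℝ => deriv q x * x + q x := by
    funext x
    have := ((hq0 x).hasDerivAt.mul (hx x)).deriv
    rw [mul_one] at this
    exact this
  rw [iteratedDeriv_succ, iteratedDeriv_one, h1, iteratedDeriv_succ, iteratedDeriv_one]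
  have := (((hq1 x).hasDerivAt.mul (hx x)).add (hq0 x).hasDerivAt).deriv
  refine Eq.trans this ?_
  ring

lemma polyHill_sq (q u : ℝ → ℂ) (x : ℝ) : polyHill (X ^ 2) q u x = hill q (hill q u) x := by
  unfold polyHill
  rw [natDegree_X_pow]
  simp [Finset.sum_range_succ, coeff_X_pow]

theorem not_hill {b : ℝ} (hb : 0 < b) (q : ℝ → ℂ) (hq : ContDiff ℝ 2 q) :
    ¬ ∀ u : ℝ → ℂ, ContDiff ℝ ∞ u → ∀ x,
      op 4 (pot (2 * Real.pi / b)) u x = polyHill (X ^ 2) q u x := by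
  intro h
  set κ : ℝ := 2 * Real.pi / b with hκ
  have hid : ContDiff ℝ ∞ (fun x : ℝ => (x : ℂ)) := Complex.ofRealCLM.contDiff
  have e1 : ∀ x, Q230.Gas.q κ x = iteratedDeriv 2 q x + q x * q x := by
    intro x
    have h1 := h (fun _ => 1) contDiff_const x
    rw [op_pot, polyHill_sq, hill_one] at h1
    have : iteratedDeriv 4 (fun _ : ℝ => (1 : ℂ)) x = 0 := by
      rw [iteratedDeriv_const]
      simp
    rw [this] at h1
    unfold hill at h1
    linear_combination h1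
  have e2 : ∀ x : ℝ, Q230.Gas.q κ x * x = iteratedDeriv 2 q x * x + 2 * deriv q x +
      q x * (q x * x) := by
    intro x
    have h1 := h (fun x => (x : ℂ)) hid x
    rw [op_pot, polyHill_sq, hill_id] at h1
    have hd1 : deriv (fun x : ℝ => (x : ℂ)) = fun _ => 1 := by
      funext x
      exact Complex.ofRealCLM.hasDerivAt.deriv
    have : iteratedDeriv 4 (fun x : ℝ => (x : ℂ)) x = 0 := by
      rw [iteratedDeriv_succ', hd1, iteratedDeriv_const]
      simp
    rw [this] at h1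
    unfold hill at h1
    rw [iter_two q hq] at h1
    linear_combination h1
  have e3 : ∀ x, deriv q x = 0 := by
    intro x
    have h1 := e1 x
    have h2 := e2 x
    linear_combination (-1 / 2 : ℂ) * h2 + (x : ℂ) / 2 * h1
  have e4 : ∀ x y, q x = q y := is_const_of_deriv_eq_zero (hq.differentiable (by norm_num)) e3
  have e5 : ∀ x, iteratedDeriv 2 q x = 0 := by
    intro x
    have : deriv q = fun _ => 0 := funext e3
    rw [iteratedDeriv_succ, iteratedDeriv_one, this]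
    simp
  have e6 : Q230.Gas.q κ 0 = Q230.Gas.q κ (b / 2) := by
    rw [e1, e1, e5, e5, e4 0 (b / 2)]
  have e7 : Q230.Gas.q κ 0 = 1 := by simp [Q230.Gas.q]
  have e8 : Q230.Gas.q κ (b / 2) = -1 := by
    unfold Q230.Gas.q
    rw [← Complex.exp_pi_mul_I]
    congr 1
    rw [hκ]
    have : (b : ℂ) ≠ 0 := by exact_mod_cast hb.ne'
    push_cast
    field_simp
  rw [e7, e8] at e6
  norm_num at e6

lemma P_eq (b : ℝ) (u : Fin 4 → ℝ → ℂ) (r : ℂ) :
    P 4 b u r = (Matrix.scalar (Fin 4) r - Q230.Gas.T b u).det := by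
  unfold P floquetMatrix Q230.Gas.T
  congr 2
  rw [Matrix.scalar_apply, Matrix.smul_one_eq_diagonal]

lemma prod_iff (b : ℝ) (lam : ℂ) {r : ℂ} (hr : r ≠ 0) :
    (((X ^ 2 - C lam : ℂ[X]).roots.map fun w => r + r⁻¹ - disc b w).prod = 0) ↔
      ∃ β : ℂ, β ^ 4 = lam ∧ Complex.exp (β * b) = r := by
  have h0 : (X ^ 2 - C lam : ℂ[X]) ≠ 0 := X_pow_sub_C_ne_zero (by norm_num) _
  rw [Multiset.prod_eq_zero_iff, Multiset.mem_map]
  constructor
  · rintro ⟨w, hw, hr0⟩
    have hw2 : w ^ 2 = lam := by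
      have := (mem_roots h0).1 hw
      simp only [IsRoot.def, eval_sub, eval_pow, eval_X, eval_C] at this
      exact sub_eq_zero.1 this
    obtain ⟨β, hβ⟩ := IsAlgClosed.exists_pow_nat_eq w (n := 2) (by norm_num)
    rw [← hβ, disc_sq] at hr0
    set e : ℂ := Complex.exp (β * b) with he
    have he0 : e ≠ 0 := Complex.exp_ne_zero _
    have he' : Complex.exp (-(β * b)) = e⁻¹ := Complex.exp_neg _
    rw [he'] at hr0
    have h1 : (r - e) * (r - e⁻¹) = 0 := by
      have : (r - e) * (r - e⁻¹) = r * (r + r⁻¹ - (e + e⁻¹)) := by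
        field_simp
        ring
      rw [this, hr0, mul_zero]
    have hβ4 : β ^ 4 = lam := by rw [← hw2, ← hβ]; ring
    rcases mul_eq_zero.1 h1 with h2 | h2
    · exact ⟨β, hβ4, (sub_eq_zero.1 h2).symm⟩
    · refine ⟨-β, ?_, ?_⟩
      · rw [← hβ4]; ring
      · rw [neg_mul, he', ← sub_eq_zero.1 h2]
  · rintro ⟨β, hβ, hβr⟩
    refine ⟨β ^ 2, ?_, ?_⟩
    · rw [mem_roots h0]
      simp only [IsRoot.def, eval_sub, eval_pow, eval_X, eval_C]
      rw [← hβ]
      ring
    · rw [disc_sq, Complex.exp_neg, hβr]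
      ring

/-- **MP_214325_an, Q1, disproved.** -/
theorem result (b : ℝ) (hb : 0 < b) :
    ∃ (p : ℕ → ℝ → ℂ) (R : ℂ[X]) (Δ : ℂ → ℂ),
      (∀ k, ContDiff ℝ ∞ (p k) ∧ Function.Periodic (p k) b) ∧
      R.Monic ∧ R.natDegree = 2 ∧ Differentiable ℂ Δ ∧
      (∀ lam : ℂ, ∃! u : Fin 4 → ℝ → ℂ, IsFund 4 p lam u) ∧
      (∀ (lam : ℂ) (u : Fin 4 → ℝ → ℂ), IsFund 4 p lam u → ∀ r : ℂ, r ≠ 0 →
        (P 4 b u r = 0 ↔ ((R - C lam).roots.map fun w => r + r⁻¹ - Δ w).prod = 0)) ∧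
      ∀ q : ℝ → ℂ, ContDiff ℝ 2 q →
        ¬ ∀ u : ℝ → ℂ, ContDiff ℝ ∞ u → ∀ x, op 4 p u x = polyHill R q u x := by
  set κ : ℝ := 2 * Real.pi / b with hκ
  have hκ0 : 0 < κ := by positivity
  have hκb : κ * b = 2 * Real.pi := by rw [hκ]; field_simp
  refine ⟨pot κ, X ^ 2, disc b, fun k => ?_, monic_X_pow 2, natDegree_X_pow 2, disc_diff b,
    fun lam => ?_, fun lam u hu r hr => ?_, fun q hq => not_hill hb q hq⟩
  · unfold pot
    split_ifs with hk
    · refine ⟨Q230.Gas.q_smooth κ, fun x => ?_⟩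
      unfold Q230.Gas.q
      have : Complex.I * κ * ((x + b : ℝ) : ℂ) = Complex.I * κ * x +
          Complex.I * κ * ((1 : ℤ) : ℂ) * b := by
        push_cast
        ring
      rw [this, Complex.exp_add, Q230.Gas.exp_per hκb 1, mul_one]
    · exact ⟨contDiff_const, fun x => rfl⟩
  · obtain ⟨u, hu⟩ := Q230.Gas.exists_fund κ lam
    exact ⟨u, (isFund_iff κ lam u).2 hu, fun v hv => ((isFund_iff κ lam v).1 hv).unique hu⟩
  · rw [P_eq, prod_iff b lam hr]
    exact Q230.Gas.multipliers hκ0 hb hκb ((isFund_iff κ lam u).1 hu) hr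

end Pool.Agent.Results.MP_214325_an.GasymovPotential
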